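import Mathlib
import Pool.Agent.V11205.NH.Main

/-!
# Strong numerical hypercyclicity from two nontrivial Jordan blocks

If `ker (T - λ_j)^2 ≠ ker (T - λ_j)` for `j = 1, 2`, where `|λ₁| = |λ₂| ≥ 1` and `λ₁ / |λ₁|`,
`λ₂ / |λ₂|` are independent, then `T` is strongly numerically hypercyclic.

Proof. Normalise Jordan chains: `S v₀ = λ₁ v₀`, `S v₁ = λ₁ (v₁ + v₀)`, `S v₂ = λ₂ v₂`,
`S v₃ = λ₂ (v₃ + v₂)`. For all small complex `b` the function
`|x₁ x₃ exp (2 b x₀ / x₁ + 2 b̄ x₂ / x₃)|` has a local maximum over the unit ball of the span, at a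
point with `x₁, x₃ ≠ 0`; half its logarithmic derivative there is a norming functional `g` of the
point `x`, and `g (S^n x) = λ₁^n (1/2 + n b) + λ₂^n (1/2 + n b̄)`. By Kronecker's theorem and Baire's
theorem this sequence is dense in `ℂ` for a dense set of `b`.
-/

set_option autoImplicit false

namespace Pool.Agent.Results.MP_51ad50_an.TwoJordanBlocks

universe u v

/-- `S` is numerically hypercyclic: `{f (S ^ n y) : n ≥ 0}` is dense in `ℂ` for some pair `(y, f)`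
with `‖y‖ = ‖f‖ = f y = 1`. -/
def NumericallyHypercyclic {Y : Type v} [NormedAddCommGroup Y] [NormedSpace ℂ Y]
    (S : Y →L[ℂ] Y) : Prop :=
  ∃ (y : Y) (f : StrongDual ℂ Y), ‖y‖ = 1 ∧ ‖f‖ = 1 ∧ f y = 1 ∧
    Dense (Set.range fun n : ℕ => f ((S ^ n) y))

/-- `T` is strongly numerically hypercyclic: every operator `S` on a Banach space `Y` similar to
`T` (by a linear homeomorphism `J`) is numerically hypercyclic. -/
def StronglyNumericallyHypercyclic {X : Type u} [NormedAddCommGroup X] [NormedSpace ℂ X]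
    (T : X →L[ℂ] X) : Prop :=
  ∀ (Y : Type v) [NormedAddCommGroup Y] [NormedSpace ℂ Y] [CompleteSpace Y]
    (S : Y →L[ℂ] Y) (J : X ≃L[ℂ] Y), (∀ x, J (T x) = S (J x)) → NumericallyHypercyclic S

/-- Independence of two points of the unit circle: `z₁ ^ m * z₂ ^ n ≠ 1` for all
`(m, n) ≠ (0, 0)` in `ℤ²`. -/
def Independent (z₁ z₂ : ℂ) : Prop := ∀ m n : ℤ, z₁ ^ m * z₂ ^ n = 1 → m = 0 ∧ n = 0

/-- a normalised Jordan chain of length two -/
lemma exists_chain {X : Type u} [NormedAddCommGroup X] [NormedSpace ℂ X] (T : X →L[ℂ] X) (l : ℂ)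
    (hl : l ≠ 0)
    (h : LinearMap.ker (((T : X →ₗ[ℂ] X) - l • LinearMap.id) ^ 2) ≠
      LinearMap.ker ((T : X →ₗ[ℂ] X) - l • LinearMap.id)) :
    ∃ v v' : X, v ≠ 0 ∧ T v = l • v ∧ T v' = l • (v' + v) := by
  set D : X →ₗ[ℂ] X := (T : X →ₗ[ℂ] X) - l • LinearMap.id with hD
  have hDa : ∀ x, D x = T x - l • x := fun x => rfl
  have hle : LinearMap.ker D ≤ LinearMap.ker (D ^ 2) := by
    intro x hx
    rw [LinearMap.mem_ker] at hx ⊢
    rw [pow_two, Module.End.mul_apply, hx, map_zero]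
  obtain ⟨w, hw1, hw2⟩ : ∃ w, D (D w) = 0 ∧ D w ≠ 0 := by
    by_contra hcon
    push Not at hcon
    apply h
    refine le_antisymm ?_ hle
    intro x hx
    rw [LinearMap.mem_ker] at hx ⊢
    rw [pow_two, Module.End.mul_apply] at hx
    exact hcon x hx
  refine ⟨l⁻¹ • D w, w, ?_, ?_, ?_⟩
  · exact smul_ne_zero (inv_ne_zero hl) hw2
  · rw [hDa (D w), sub_eq_zero] at hw1
    rw [map_smul, hw1, smul_comm]
  · rw [smul_add, smul_smul, mul_inv_cancel₀ hl, one_smul, hDa]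
    abel

theorem result (X : Type u) [NormedAddCommGroup X] [NormedSpace ℂ X] [CompleteSpace X]
    (T : X →L[ℂ] X) (l₁ l₂ : ℂ)
    (h₁ : LinearMap.ker (((T : X →ₗ[ℂ] X) - l₁ • LinearMap.id) ^ 2) ≠
      LinearMap.ker ((T : X →ₗ[ℂ] X) - l₁ • LinearMap.id))
    (h₂ : LinearMap.ker (((T : X →ₗ[ℂ] X) - l₂ • LinearMap.id) ^ 2) ≠
      LinearMap.ker ((T : X →ₗ[ℂ] X) - l₂ • LinearMap.id))
    (hn : ‖l₁‖ = ‖l₂‖) (hge : 1 ≤ ‖l₁‖)
    (hind : Independent (l₁ / ‖l₁‖) (l₂ / ‖l₂‖)) :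
    StronglyNumericallyHypercyclic.{u, v} T := by
  intro Y _ _ _ S J hSJ
  have hl1 : l₁ ≠ 0 := by
    intro h; rw [h, norm_zero] at hge; linarith
  have hl2 : l₂ ≠ 0 := by
    intro h; rw [hn, h, norm_zero] at hge; linarith
  obtain ⟨a, a', ha, ha1, ha2⟩ := exists_chain T l₁ hl1 h₁
  obtain ⟨c, c', hc, hc1, hc2⟩ := exists_chain T l₂ hl2 h₂
  refine V11205.NH.main S l₁ l₂ ![J a, J a', J c, J c'] ?_ ?_ ?_ ?_ ?_ ?_ hn hge hind
  · simp only [Matrix.cons_val]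
    rw [← hSJ, ha1, map_smul]
  · simp only [Matrix.cons_val]
    rw [← hSJ, ha2, map_smul, map_add]
  · simp only [Matrix.cons_val]
    rw [← hSJ, hc1, map_smul]
  · simp only [Matrix.cons_val]
    rw [← hSJ, hc2, map_smul, map_add]
  · simpa using ha
  · simpa using hc

end Pool.Agent.Results.MP_51ad50_an.TwoJordanBlocks
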